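import Pool.Agent.helper24.NR.Spec

set_option autoImplicit false

namespace Pool.Agent.NR

theorem QSF_walk {V : Type} (G : SimpleGraph V) : ∀ (k : ℕ) (a : ℕ → V), (∀ i, i < k → G.Adj (a i) (a (i + 1))) →
    ∃ p : G.Walk (a 0) (a k), p.length = k ∧ ∀ i, i ≤ k → p.getVert i = a i := by
  intro k
  induction k with
  | zero =>
    intro a _
    refine ⟨SimpleGraph.Walk.nil, rfl, ?_⟩
    intro i hi
    obtain rfl : i = 0 := by omega
    rfl
  | succ k ih =>
    intro a ha
    obtain ⟨p, hp1, hp2⟩ := ih (fun i => a (i + 1)) (fun i hi => ha (i + 1) (by omega))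
    refine ⟨SimpleGraph.Walk.cons (ha 0 (by omega)) p, ?_, ?_⟩
    · rw [SimpleGraph.Walk.length_cons, hp1]
    · intro i hi
      cases i with
      | zero => exact SimpleGraph.Walk.getVert_zero _
      | succ i =>
        rw [SimpleGraph.Walk.getVert_cons_succ]
        exact hp2 i (by omega)

theorem QSF_meet {V F : Type} [Fintype V] [DecidableEq V] (M : PolyMap V F) (f g : F) (hfg : f ≠ g) (x y : V) (hxy : x ≠ y)
    (h1 : x ∈ M.vs f) (h2 : y ∈ M.vs f) (h3 : x ∈ M.vs g) (h4 : y ∈ M.vs g) : s(x, y) ∈ M.es f ∧ s(x, y) ∈ M.es g := by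
  rcases M.meet f g hfg with h | ⟨u, h⟩ | ⟨u, v, huv, hf, hg, h⟩
  · exact absurd ⟨h1, h3⟩ (h x)
  · have e1 := (h x).1 ⟨h1, h3⟩
    have e2 := (h y).1 ⟨h2, h4⟩
    exact absurd (e1.trans e2.symm) hxy
  · have e1 := (h x).1 ⟨h1, h3⟩
    have e2 := (h y).1 ⟨h2, h4⟩
    have key : s(x, y) = s(u, v) := by
      rcases e1 with rfl | rfl
      · rcases e2 with rfl | rfl
        · exact absurd rfl hxy
        · rfl
      · rcases e2 with rfl | rfl
        · exact Sym2.eq_swap
        · exact absurd rfl hxy
    rw [key]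
    exact ⟨hf, hg⟩

theorem QSF : QSF_stmt := by
  intro V F _ _ M x y f hxy hx hy
  have hsx : M.bd f x ≠ x := Equiv.Perm.mem_support.1 hx
  have hsy : M.bd f y ≠ y := Equiv.Perm.mem_support.1 hy
  by_cases hxyf : s(x, y) ∈ M.es f
  · have hadj : (gr M.es).Adj x y := ⟨hxy, f, hxyf⟩
    refine ⟨SimpleGraph.Walk.cons hadj SimpleGraph.Walk.nil, ?_, ?_⟩
    · rw [SimpleGraph.Walk.cons_isPath_iff]
      refine ⟨SimpleGraph.Walk.IsPath.nil, ?_⟩
      simpa using hxy
    · intro g i j hij hj hgi hgj k hik hkj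
      have hj1 : j ≤ 1 := by simpa using hj
      obtain rfl : j = 1 := by omega
      obtain rfl : i = 0 := by omega
      obtain rfl : k = 0 := by omega
      have g0 : (SimpleGraph.Walk.cons hadj (SimpleGraph.Walk.nil : (gr M.es).Walk y y)).getVert 0 = x := rfl
      have g1 : (SimpleGraph.Walk.cons hadj (SimpleGraph.Walk.nil : (gr M.es).Walk y y)).getVert 1 = y := rfl
      rw [g0] at hgi
      rw [g1] at hgj
      show s((SimpleGraph.Walk.cons hadj (SimpleGraph.Walk.nil : (gr M.es).Walk y y)).getVert 0,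
        (SimpleGraph.Walk.cons hadj (SimpleGraph.Walk.nil : (gr M.es).Walk y y)).getVert 1) ∈ M.es g
      rw [g0, g1]
      by_cases hg : f = g
      · rw [← hg]
        exact hxyf
      · exact (QSF_meet M f g hg x y hxy hx hy hgi hgj).2
  · set σ := M.bd f with hσ
    have hc : σ.IsCycle := M.isCycle f
    set n := orderOf σ with hn
    have hnpos : 0 < n := orderOf_pos σ
    obtain ⟨k0, hk0⟩ := hc.exists_pow_eq hsx hsy
    set k := k0 % n with hk
    have hkn : k < n := Nat.mod_lt _ hnpos
    have hky : (σ ^ k) x = y := by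
      rw [hk, hn, pow_mod_orderOf]
      exact hk0
    have hinj : ∀ i j, i < j → j - i < n → (σ ^ i) x ≠ (σ ^ j) x := by
      intro i j hij hjn he
      have e1 : (σ ^ j) x = (σ ^ (j - i)) ((σ ^ i) x) := by
        rw [← Equiv.Perm.mul_apply, ← pow_add]
        congr 2
        omega
      have hsup : σ ((σ ^ i) x) ≠ (σ ^ i) x := by
        rw [← Equiv.Perm.mem_support, Equiv.Perm.pow_apply_mem_support]
        exact hx
      have e2 : σ ^ (j - i) = 1 := (hc.pow_eq_one_iff' hsup).2 (by rw [← e1]; exact he.symm)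
      have e3 : n ∣ j - i := orderOf_dvd_of_pow_eq_one e2
      have e4 := Nat.le_of_dvd (by omega) e3
      omega
    have hedge : ∀ i, s((σ ^ i) x, (σ ^ (i + 1)) x) ∈ M.es f := by
      intro i
      have hm : (σ ^ i) x ∈ σ.support := Equiv.Perm.pow_apply_mem_support.2 hx
      refine Finset.mem_image.2 ⟨(σ ^ i) x, hm, ?_⟩
      show s((σ ^ i) x, σ ((σ ^ i) x)) = _
      rw [pow_succ', Equiv.Perm.mul_apply]
    have hn3 : 3 ≤ n := by
      rw [hn, hc.orderOf]
      exact M.three_le f
    obtain ⟨p, hp1, hp2⟩ := QSF_walk (gr M.es) k (fun i => (σ ^ i) x)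
      (fun i _ => ⟨hinj i (i + 1) (by omega) (by omega), f, hedge i⟩)
    have hw : ∃ p : (gr M.es).Walk x y, p.length = k ∧ ∀ i, i ≤ k → p.getVert i = (σ ^ i) x := by
      refine ⟨p.copy (by simp) hky, ?_, ?_⟩
      · rw [SimpleGraph.Walk.length_copy, hp1]
      · intro i hi
        rw [SimpleGraph.Walk.getVert_copy]
        exact hp2 i hi
    obtain ⟨p, hp1, hp2⟩ := hw
    refine ⟨p, ?_, ?_⟩
    · rw [← SimpleGraph.Walk.IsPath.getVert_injOn_iff]
      intro i hi j hj hij
      have hi' : i ≤ k := by
        have : i ≤ p.length := hi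
        omega
      have hj' : j ≤ k := by
        have : j ≤ p.length := hj
        omega
      rw [hp2 i hi', hp2 j hj'] at hij
      by_contra hne
      rcases lt_or_gt_of_ne hne with h | h
      · exact hinj i j h (by omega) hij
      · exact hinj j i h (by omega) hij.symm
    · intro g i j hij hj hgi hgj l hil hlj
      rw [hp1] at hj
      rw [hp2 i (by omega)] at hgi
      rw [hp2 j (by omega)] at hgj
      rw [hp2 l (by omega), hp2 (l + 1) (by omega)]
      by_cases hg : f = g
      · rw [← hg]
        exact hedge l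
      · have hi1 : (σ ^ i) x ∈ M.vs f := Equiv.Perm.pow_apply_mem_support.2 hx
        have hj1 : (σ ^ j) x ∈ M.vs f := Equiv.Perm.pow_apply_mem_support.2 hx
        obtain ⟨e1, e2⟩ := QSF_meet M f g hg _ _ (hinj i j hij (by omega)) hi1 hj1 hgi hgj
        obtain ⟨w, hw, hwe⟩ := Finset.mem_image.1 e1
        rw [Sym2.eq_iff] at hwe
        rcases hwe with ⟨rfl, hw2⟩ | ⟨rfl, hw2⟩
        · have e3 : (σ ^ (i + 1)) x = (σ ^ j) x := by
            rw [pow_succ', Equiv.Perm.mul_apply]
            exact hw2
          have hji : j = i + 1 := by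
            by_contra hne
            exact hinj (i + 1) j (by omega) (by omega) e3
          subst hji
          obtain rfl : l = i := by omega
          exact e2
        · have e3 : (σ ^ (j + 1)) x = (σ ^ i) x := by
            rw [pow_succ', Equiv.Perm.mul_apply]
            exact hw2
          exfalso
          by_cases hjn : j + 1 - i < n
          · exact hinj i (j + 1) (by omega) hjn e3.symm
          · have hi0 : i = 0 := by omega
            have hjk : j = k := by omega
            subst hi0
            apply hxyf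
            rw [← hky, ← hjk]
            exact e1

end Pool.Agent.NR
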